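import Mathlib

/-!
# The coefficients of Fricke trace polynomials grow at the golden rate

For a word `w` in the free group `F(a, b)` let `f_w ∈ ℤ[x, y, z]` be its trace polynomial, `H(w)` the
largest absolute value of a coefficient and `L(w)` the sum of the absolute values of the
coefficients.  We show that the largest value of `L(w)` over all words of cyclically reduced
length `n ≥ 1` is the `n`-th Lucas number, and that both exponential rates `C_H` and `C_L` are equal
to the golden ratio.
-/

set_option autoImplicit false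

namespace Pool.Agent.Results.MP_58e1fa_al.GoldenRate

open MvPolynomial Filter Topology

/-! ### Definitions -/

/-- The polynomial ring `ℤ[x, y, z]`, with `x = X 0`, `y = X 1` and `z = X 2`. -/
abbrev R : Type := MvPolynomial (Fin 3) ℤ

/-- The group `SL₂(ℂ)`. -/
abbrev SL2 : Type := Matrix.SpecialLinearGroup (Fin 2) ℂ

/-- The trace of an element of `SL₂(ℂ)`. -/
noncomputable def tr (M : SL2) : ℂ := Matrix.trace (M : Matrix (Fin 2) (Fin 2) ℂ)

/-- The value `w(A, B)` of a word at a pair of matrices. -/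
noncomputable def value (A B : SL2) : FreeGroup (Fin 2) →* SL2 := FreeGroup.lift ![A, B]

/-- The point `(tr A, tr B, tr AB)`. -/
noncomputable def pt (A B : SL2) : Fin 3 → ℂ := ![tr A, tr B, tr (A * B)]

/-- `f` is a trace polynomial of `w`: `f (tr A, tr B, tr AB) = tr w(A, B)` for all `A`, `B`. -/
def IsTracePolynomial (w : FreeGroup (Fin 2)) (f : R) : Prop :=
  ∀ A B : SL2, aeval (pt A B) f = tr (value A B w)

open Classical in
/-- The trace polynomial of `w`. -/
noncomputable def tracePolynomial (w : FreeGroup (Fin 2)) : R :=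
  if h : ∃ f, IsTracePolynomial w f then h.choose else 0

/-- The largest absolute value of a coefficient. -/
noncomputable def H (f : R) : ℕ := f.support.sup (fun m => (f.coeff m).natAbs)

/-- The sum of the absolute values of the coefficients. -/
noncomputable def L (f : R) : ℕ := ∑ m ∈ f.support, (f.coeff m).natAbs

/-- `w` is conjugate to a cyclically reduced word of length `n`. -/
def HasLength (w : FreeGroup (Fin 2)) (n : ℕ) : Prop :=
  ∃ v : List (Fin 2 × Bool), FreeGroup.IsCyclicallyReduced v ∧ v.length = n ∧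
    IsConj (FreeGroup.mk v) w

/-- `max {H(w) : ‖w‖ = n}`. -/
noncomputable def maxH (n : ℕ) : ℕ := sSup {h | ∃ w, HasLength w n ∧ H (tracePolynomial w) = h}

/-- `max {L(w) : ‖w‖ = n}`. -/
noncomputable def maxL (n : ℕ) : ℕ := sSup {h | ∃ w, HasLength w n ∧ L (tracePolynomial w) = h}

/-- The exponential rate `C_H`. -/
noncomputable def rateH : ℝ := limsup (fun n : ℕ => (maxH n : ℝ) ^ (1 / (n : ℝ))) atTop

/-- The exponential rate `C_L`. -/
noncomputable def rateL : ℝ := limsup (fun n : ℕ => (maxL n : ℝ) ^ (1 / (n : ℝ))) atTop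

/-- The Lucas numbers `2, 1, 3, 4, 7, 11, 18, ...`. -/
def lucas : ℕ → ℕ
  | 0 => 2
  | 1 => 1
  | n + 2 => lucas (n + 1) + lucas n

/-! ### The norm `L` -/

lemma L_eq_sum (f : R) {s : Finset (Fin 3 →₀ ℕ)} (h : f.support ⊆ s) :
    L f = ∑ m ∈ s, (f.coeff m).natAbs := by
  unfold L
  refine Finset.sum_subset h fun m _ hm => ?_
  rw [MvPolynomial.notMem_support_iff.mp hm]
  rfl

lemma L_add (f g : R) : L (f + g) ≤ L f + L g := by
  classical
  rw [L_eq_sum (f + g) (s := f.support ∪ g.support) MvPolynomial.support_add,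
    L_eq_sum f (s := f.support ∪ g.support) Finset.subset_union_left,
    L_eq_sum g (s := f.support ∪ g.support) Finset.subset_union_right, ← Finset.sum_add_distrib]
  refine Finset.sum_le_sum fun m _ => ?_
  rw [coeff_add]
  exact Int.natAbs_add_le _ _

lemma L_neg (f : R) : L (-f) = L f := by
  unfold L
  rw [MvPolynomial.support_neg]
  refine Finset.sum_congr rfl fun m _ => ?_
  rw [coeff_neg, Int.natAbs_neg]

lemma L_sub (f g : R) : L (f - g) ≤ L f + L g := by
  rw [sub_eq_add_neg, ← L_neg g]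
  exact L_add _ _

lemma L_zero : L 0 = 0 := by
  simp [L]

lemma L_sum {ι : Type*} (s : Finset ι) (F : ι → R) : L (∑ i ∈ s, F i) ≤ ∑ i ∈ s, L (F i) := by
  classical
  induction s using Finset.induction_on with
  | empty => simp [L_zero]
  | insert a s ha ih =>
    rw [Finset.sum_insert ha, Finset.sum_insert ha]
    exact (L_add _ _).trans (Nat.add_le_add_left ih _)

lemma L_monomial (m : Fin 3 →₀ ℕ) (c : ℤ) : L (monomial m c) ≤ c.natAbs := by
  classical
  rw [L_eq_sum (monomial m c) (s := {m}) MvPolynomial.support_monomial_subset]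
  simp

lemma L_mul (f g : R) : L (f * g) ≤ L f * L g := by
  classical
  have h : f * g = ∑ m ∈ f.support, ∑ n ∈ g.support,
      monomial (m + n) (f.coeff m * g.coeff n) := MvPolynomial.mul_def
  rw [h]
  refine (L_sum _ _).trans ?_
  unfold L
  rw [Finset.sum_mul]
  refine Finset.sum_le_sum fun m _ => ?_
  refine (L_sum _ _).trans ?_
  rw [Finset.mul_sum]
  refine Finset.sum_le_sum fun n _ => ?_
  refine (L_monomial _ _).trans ?_
  rw [Int.natAbs_mul]

lemma L_X (i : Fin 3) : L (X i : R) ≤ 1 := L_monomial _ _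

lemma L_C (c : ℤ) : L (C c : R) ≤ c.natAbs := L_monomial _ _

lemma L_one : L (1 : R) ≤ 1 := L_C 1

lemma L_two : L (2 : R) ≤ 2 := L_C 2

/-- `|f(v)| ≤ L(f)` on the unit polydisc. -/
lemma norm_aeval_le (v : Fin 3 → ℂ) (hv : ∀ i, ‖v i‖ ≤ 1) (f : R) : ‖aeval v f‖ ≤ L f := by
  rw [MvPolynomial.aeval_def, MvPolynomial.eval₂_eq']
  refine (norm_sum_le _ _).trans ?_
  unfold L
  push_cast
  refine Finset.sum_le_sum fun m _ => ?_
  rw [norm_mul, norm_prod]
  have h1 : ∏ i, ‖v i ^ m i‖ ≤ 1 := by
    refine Finset.prod_le_one (fun i _ => norm_nonneg _) fun i _ => ?_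
    rw [norm_pow]
    exact pow_le_one₀ (norm_nonneg _) (hv i)
  have h2 : ‖(algebraMap ℤ ℂ) (coeff m f)‖ = ((f.coeff m).natAbs : ℝ) := by
    simp [Nat.cast_natAbs]
  rw [h2]
  calc ((f.coeff m).natAbs : ℝ) * ∏ i, ‖v i ^ m i‖ ≤ ((f.coeff m).natAbs : ℝ) * 1 :=
        mul_le_mul_of_nonneg_left h1 (by positivity)
    _ = _ := mul_one _

lemma H_le_L (f : R) : H f ≤ L f := by
  unfold H L
  refine Finset.sup_le fun m hm => ?_
  exact Finset.single_le_sum (f := fun m => (f.coeff m).natAbs) (fun _ _ => Nat.zero_le _) hm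

/-! ### Traces in `SL₂(ℂ)` -/

lemma tr_mul_comm (M N : SL2) : tr (M * N) = tr (N * M) := by
  unfold tr
  rw [Matrix.SpecialLinearGroup.coe_mul, Matrix.SpecialLinearGroup.coe_mul, Matrix.trace_mul_comm]

lemma tr_one : tr 1 = 2 := by
  unfold tr
  simp

/-- The basic identity: `tr(MV) + tr(M⁻¹V) = tr M · tr V`. -/
lemma tr_basic (M V : SL2) : tr (M * V) = tr M * tr V - tr (M⁻¹ * V) := by
  unfold tr
  rw [Matrix.SpecialLinearGroup.coe_mul, Matrix.SpecialLinearGroup.coe_mul,
    Matrix.SpecialLinearGroup.coe_inv, Matrix.adjugate_fin_two]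
  simp only [Matrix.trace_fin_two, Matrix.mul_apply, Fin.sum_univ_two, Matrix.of_apply,
    Matrix.cons_val', Matrix.cons_val_zero, Matrix.cons_val_one]
  simp
  ring

lemma tr_inv (M : SL2) : tr M⁻¹ = tr M := by
  have h := tr_basic M 1
  rw [mul_one, mul_one, tr_one] at h
  linear_combination h

lemma t2 (g V : SL2) : tr (g * (g * V)) = tr g * tr (g * V) - tr V := by
  rw [tr_basic g (g * V), inv_mul_cancel_left]

lemma t3 (g h V : SL2) :
    tr (g * (h * (g * V))) = tr (g * h) * tr (g * V) - tr (h⁻¹ * V) := by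
  rw [← mul_assoc g h, tr_basic (g * h) (g * V)]
  congr 2
  group

/-- Inverse in the middle. -/
lemma tm (U g V : SL2) : tr (U * (g⁻¹ * V)) = tr g * tr (U * V) - tr (U * (g * V)) := by
  have h := tr_basic g⁻¹ (V * U)
  rw [inv_inv, tr_inv] at h
  rw [tr_mul_comm U (g⁻¹ * V), mul_assoc, h, tr_mul_comm V U, tr_mul_comm U (g * V), mul_assoc]

lemma t4 (g h V : SL2) :
    tr (g * (h * (g⁻¹ * (h⁻¹ * V)))) = tr g * tr (g * V) - tr (g * h) * tr (g * (h⁻¹ * V))
      + tr h * tr (h⁻¹ * V) - tr V := by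
  have h1 : tr (g * (h * (g⁻¹ * (h⁻¹ * V)))) =
      tr g * tr (g * V) - tr (g * (h * (g * (h⁻¹ * V)))) := by
    have := tm (g * h) g (h⁻¹ * V)
    simpa only [mul_assoc, mul_inv_cancel_left] using this
  rw [h1, t3 g h (h⁻¹ * V), t2 h⁻¹ V, tr_inv]
  ring

lemma t4' (g h V : SL2) :
    tr (g * (h * (g * (h * V)))) = tr (g * h) * tr (g * (h * V)) - tr V := by
  have := t2 (g * h) V
  simpa only [mul_assoc] using this

lemma t5 (g h V : SL2) :
    tr (g * (h * (g⁻¹ * (h * (g * V))))) =
      (tr g * tr h * tr (g * h) - tr g * tr g - tr (g * h) * tr (g * h) + 1) * tr (g * V)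
      + (tr (g * h) - tr g * tr h) * tr (h⁻¹ * V) + tr g * tr V := by
  have h1 : tr (g * (h * (g⁻¹ * (h * (g * V))))) =
      tr g * tr (g * (h * (h * (g * V)))) - tr (g * (h * (g * (h * (g * V))))) := by
    have := tm (g * h) g (h * (g * V))
    simpa only [mul_assoc] using this
  have h2 : tr (g * (h * (h * (g * V)))) = tr h * tr (g * (h * (g * V))) - tr (g * (g * V)) := by
    rw [tr_mul_comm g (h * (h * (g * V)))]
    have := t2 h (g * V * g)
    rw [tr_mul_comm g (h * (g * V)), tr_mul_comm g (g * V)]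
    simpa only [mul_assoc] using this
  have h3 : tr (g * (h * (g * (h * (g * V))))) =
      tr (g * h) * tr (g * (h * (g * V))) - tr (g * V) := t4' g h (g * V)
  rw [h1, h2, h3, t3 g h V, t2 g V]
  ring

/-! ### Words -/

/-- The matrix of a letter. -/
noncomputable def lm (A B : SL2) (x : Fin 2 × Bool) : SL2 :=
  cond x.2 (![A, B] x.1) (![A, B] x.1)⁻¹

/-- The matrix of a list of letters. -/
noncomputable def mat (A B : SL2) (v : List (Fin 2 × Bool)) : SL2 := (v.map (lm A B)).prod

lemma value_mk (A B : SL2) (v : List (Fin 2 × Bool)) :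
    value A B (FreeGroup.mk v) = mat A B v := by
  unfold value mat
  rw [FreeGroup.lift_mk]
  rfl

lemma mat_cons (A B : SL2) (x : Fin 2 × Bool) (v : List (Fin 2 × Bool)) :
    mat A B (x :: v) = lm A B x * mat A B v := by
  simp [mat]

lemma mat_nil (A B : SL2) : mat A B [] = 1 := by
  simp [mat]

lemma mat_append (A B : SL2) (u v : List (Fin 2 × Bool)) :
    mat A B (u ++ v) = mat A B u * mat A B v := by
  simp [mat]

/-- The inverse letter. -/
def inv (x : Fin 2 × Bool) : Fin 2 × Bool := (x.1, !x.2)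

lemma lm_inv (A B : SL2) (x : Fin 2 × Bool) : lm A B (inv x) = (lm A B x)⁻¹ := by
  obtain ⟨i, s⟩ := x
  cases s <;> simp [lm, inv]

/-- The variable of a letter. -/
noncomputable def var (x : Fin 2 × Bool) : R := X x.1.castSucc

lemma tr_letter (A B : SL2) (x : Fin 2 × Bool) : tr (lm A B x) = aeval (pt A B) (var x) := by
  obtain ⟨i, s⟩ := x
  fin_cases i <;> cases s <;> simp [lm, var, pt, tr_inv]

lemma tr_same (A B : SL2) (x y : Fin 2 × Bool) (h : x.1 ≠ y.1) (h2 : x.2 = y.2) :
    tr (lm A B x * lm A B y) = aeval (pt A B) (X 2 : R) := by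
  obtain ⟨i, s⟩ := x
  obtain ⟨j, t⟩ := y
  simp only at h h2
  subst h2
  have key : tr (A⁻¹ * B⁻¹) = tr (A * B) := by
    rw [← mul_inv_rev, tr_inv, tr_mul_comm]
  have key2 : tr (B⁻¹ * A⁻¹) = tr (A * B) := by
    rw [← mul_inv_rev, tr_inv]
  fin_cases i <;> fin_cases j <;> cases s <;> simp [lm, pt, key, key2, tr_mul_comm B A] at h ⊢

lemma tr_opp (A B : SL2) (x y : Fin 2 × Bool) (h : x.1 ≠ y.1) (h2 : x.2 ≠ y.2) :
    tr (lm A B x * lm A B y) = aeval (pt A B) (X 0 * X 1 - X 2 : R) := by
  obtain ⟨i, s⟩ := x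
  obtain ⟨j, t⟩ := y
  simp only at h h2
  have k1 : tr (A * B⁻¹) = tr A * tr B - tr (A * B) := by
    have := tm A B 1
    simpa [mul_comm] using this
  have k2 : tr (A⁻¹ * B) = tr A * tr B - tr (A * B) := by
    have := tr_basic A B
    linear_combination this
  have k3 : tr (B⁻¹ * A) = tr A * tr B - tr (A * B) := by
    rw [tr_mul_comm, k1]
  have k4 : tr (B * A⁻¹) = tr A * tr B - tr (A * B) := by
    rw [tr_mul_comm, k2]
  fin_cases i <;> fin_cases j <;> cases s <;> cases t <;>
    simp [lm, pt, k1, k2, k3, k4] at h h2 ⊢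

/-! ### The bound -/

/-- `P v`: the list `v` has a trace polynomial with `L` at most the Lucas number of its length. -/
def P (v : List (Fin 2 × Bool)) : Prop :=
  ∃ f : R, (∀ A B : SL2, aeval (pt A B) f = tr (mat A B v)) ∧ L f ≤ lucas v.length

/-- A bound for the trace polynomial of `v`. -/
def Q (k : ℕ) (v : List (Fin 2 × Bool)) : Prop :=
  ∃ f : R, (∀ A B : SL2, aeval (pt A B) f = tr (mat A B v)) ∧ L f ≤ k

lemma Q.mono {k l : ℕ} {v : List (Fin 2 × Bool)} (h : Q k v) (hkl : k ≤ l) : Q l v := by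
  obtain ⟨f, h1, h2⟩ := h
  exact ⟨f, h1, h2.trans hkl⟩

lemma P_iff (v : List (Fin 2 × Bool)) : P v ↔ Q (lucas v.length) v := Iff.rfl

lemma Q_rot {k : ℕ} (u v : List (Fin 2 × Bool)) (h : Q k (v ++ u)) : Q k (u ++ v) := by
  obtain ⟨f, h1, h2⟩ := h
  refine ⟨f, fun A B => ?_, h2⟩
  rw [h1, mat_append, mat_append, tr_mul_comm]

lemma Q_nil : Q 2 [] := by
  refine ⟨2, fun A B => ?_, L_two⟩
  rw [mat_nil, tr_one, map_ofNat]

lemma Q_one (x : Fin 2 × Bool) : Q 1 [x] := by
  refine ⟨var x, fun A B => ?_, L_X _⟩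
  rw [mat_cons, mat_nil, mul_one, tr_letter]

/-- Cancellation. -/
lemma Q_cancel {k : ℕ} (x y : Fin 2 × Bool) (t : List (Fin 2 × Bool)) (h : x.1 = y.1)
    (h2 : x.2 ≠ y.2) (ht : Q k t) : Q k (x :: y :: t) := by
  obtain ⟨f, h3, h4⟩ := ht
  refine ⟨f, fun A B => ?_, h4⟩
  have hy : y = inv x := by
    obtain ⟨i, s⟩ := x
    obtain ⟨j, t⟩ := y
    simp only at h h2
    subst h
    cases s <;> cases t <;> simp [inv] at h2 ⊢
  rw [mat_cons, mat_cons, hy, lm_inv, mul_inv_cancel_left, h3]

lemma Q_square {k l : ℕ} (x : Fin 2 × Bool) (t : List (Fin 2 × Bool))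
    (h1 : Q k (x :: t)) (h2 : Q l t) : Q (k + l) (x :: x :: t) := by
  obtain ⟨f, f1, f2⟩ := h1
  obtain ⟨g, g1, g2⟩ := h2
  refine ⟨var x * f - g, fun A B => ?_, ?_⟩
  · rw [map_sub, map_mul, f1, g1, ← tr_letter, mat_cons, mat_cons, mat_cons, t2]
  · refine (L_sub _ _).trans (Nat.add_le_add ?_ g2)
    refine (L_mul _ _).trans ?_
    calc L (var x) * L f ≤ 1 * k := Nat.mul_le_mul (L_X _) f2
      _ = k := one_mul k

lemma Q_two (x y : Fin 2 × Bool) (h : x.1 ≠ y.1) : Q 2 [x, y] := by
  by_cases h2 : x.2 = y.2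
  · refine ⟨X 2, fun A B => ?_, (L_X _).trans (by norm_num)⟩
    rw [mat_cons, mat_cons, mat_nil, mul_one, tr_same A B x y h h2]
  · refine ⟨X 0 * X 1 - X 2, fun A B => ?_, ?_⟩
    · rw [mat_cons, mat_cons, mat_nil, mul_one, tr_opp A B x y h h2]
    · refine (L_sub _ _).trans (Nat.add_le_add (b := 1) (d := 1) ?_ (L_X _))
      exact (L_mul _ _).trans (Nat.mul_le_mul (L_X _) (L_X _))

/-- Reduction of `g h g ...` for letters of the same sign. -/
lemma Q_three {k l : ℕ} (x y : Fin 2 × Bool) (t : List (Fin 2 × Bool)) (h : x.1 ≠ y.1)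
    (hs : x.2 = y.2) (h1 : Q k (x :: t)) (h2 : Q l (inv y :: t)) :
    Q (k + l) (x :: y :: x :: t) := by
  obtain ⟨f, f1, f2⟩ := h1
  obtain ⟨g, g1, g2⟩ := h2
  refine ⟨X 2 * f - g, fun A B => ?_, ?_⟩
  · rw [map_sub, map_mul, f1, g1, ← tr_same A B x y h hs]
    simp only [mat_cons, lm_inv]
    rw [t3]
  · refine (L_sub _ _).trans (Nat.add_le_add ?_ g2)
    refine (L_mul _ _).trans ?_
    calc L (X 2 : R) * L f ≤ 1 * k := Nat.mul_le_mul (L_X _) f2
      _ = k := one_mul k

/-- Reduction of commutators `g h g⁻¹ h⁻¹ ...` for letters of the same sign. -/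
lemma Q_comm {k l m n : ℕ} (x y : Fin 2 × Bool) (t : List (Fin 2 × Bool)) (h : x.1 ≠ y.1)
    (hs : x.2 = y.2) (h1 : Q k (x :: t)) (h2 : Q l (x :: inv y :: t)) (h3 : Q m (inv y :: t))
    (h4 : Q n t) : Q (k + l + m + n) (x :: y :: inv x :: inv y :: t) := by
  obtain ⟨f, f1, f2⟩ := h1
  obtain ⟨g, g1, g2⟩ := h2
  obtain ⟨p, p1, p2⟩ := h3
  obtain ⟨q, q1, q2⟩ := h4
  refine ⟨var x * f - X 2 * g + var y * p - q, fun A B => ?_, ?_⟩
  · rw [map_sub, map_add, map_sub, map_mul, map_mul, map_mul, f1, g1, p1, q1,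
      ← tr_same A B x y h hs, ← tr_letter, ← tr_letter]
    simp only [mat_cons, lm_inv]
    rw [t4]
  · have e1 : L (var x * f) ≤ k := (L_mul _ _).trans
      ((Nat.mul_le_mul (L_X _) f2).trans (one_mul k).le)
    have e2 : L (X 2 * g) ≤ l := (L_mul _ _).trans
      ((Nat.mul_le_mul (L_X _) g2).trans (one_mul l).le)
    have e3 : L (var y * p) ≤ m := (L_mul _ _).trans
      ((Nat.mul_le_mul (L_X _) p2).trans (one_mul m).le)
    have e4 := L_sub (var x * f - X 2 * g + var y * p) q
    have e5 := L_add (var x * f - X 2 * g) (var y * p)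
    have e6 := L_sub (var x * f) (X 2 * g)
    omega

/-- Reduction of `g h g h ...` for letters of opposite signs. -/
lemma Q_four {k l : ℕ} (x y : Fin 2 × Bool) (t : List (Fin 2 × Bool)) (h : x.1 ≠ y.1)
    (hs : x.2 ≠ y.2) (h1 : Q k (x :: y :: t)) (h2 : Q l t) :
    Q (2 * k + l) (x :: y :: x :: y :: t) := by
  obtain ⟨f, f1, f2⟩ := h1
  obtain ⟨g, g1, g2⟩ := h2
  refine ⟨(X 0 * X 1 - X 2) * f - g, fun A B => ?_, ?_⟩
  · rw [map_sub, map_mul, f1, g1, ← tr_opp A B x y h hs]
    simp only [mat_cons]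
    rw [t4']
  · have e1 : L ((X 0 * X 1 - X 2 : R)) ≤ 2 := by
      refine (L_sub _ _).trans (Nat.add_le_add (b := 1) (d := 1) ?_ (L_X _))
      exact (L_mul _ _).trans (Nat.mul_le_mul (L_X _) (L_X _))
    refine (L_sub _ _).trans (Nat.add_le_add ?_ g2)
    exact (L_mul _ _).trans (Nat.mul_le_mul e1 f2)

/-- Reduction of `g h g⁻¹ h g ...` for letters of the same sign. -/
lemma Q_five {k l m : ℕ} (x y : Fin 2 × Bool) (t : List (Fin 2 × Bool)) (h : x.1 ≠ y.1)
    (hs : x.2 = y.2) (h1 : Q k (x :: t)) (h2 : Q l (inv y :: t)) (h3 : Q m t) :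
    Q (4 * k + 2 * l + m) (x :: y :: inv x :: y :: x :: t) := by
  obtain ⟨f, f1, f2⟩ := h1
  obtain ⟨g, g1, g2⟩ := h2
  obtain ⟨p, p1, p2⟩ := h3
  refine ⟨(var x * var y * X 2 - var x * var x - X 2 * X 2 + 1) * f
    + (X 2 - var x * var y) * g + var x * p, fun A B => ?_, ?_⟩
  · simp only [map_sub, map_add, map_mul, map_one]
    rw [f1, g1, p1, ← tr_same A B x y h hs, ← tr_letter, ← tr_letter]
    simp only [mat_cons, lm_inv]
    rw [t5]
  · have e0 : ∀ a b : R, L a ≤ 1 → L b ≤ 1 → L (a * b) ≤ 1 := fun a b ha hb =>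
      (L_mul _ _).trans (Nat.mul_le_mul ha hb)
    have x1 : L (var x) ≤ 1 := L_X _
    have y1 : L (var y) ≤ 1 := L_X _
    have z1 : L (X 2 : R) ≤ 1 := L_X _
    have e1 : L (var x * var y * X 2 - var x * var x - X 2 * X 2 + 1) ≤ 4 := by
      have a1 := L_add (var x * var y * X 2 - var x * var x - X 2 * X 2) 1
      have a2 := L_sub (var x * var y * X 2 - var x * var x) (X 2 * X 2)
      have a3 := L_sub (var x * var y * X 2) (var x * var x)
      have b1 := e0 _ _ (e0 _ _ x1 y1) z1
      have b2 := e0 _ _ x1 x1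
      have b3 := e0 _ _ z1 z1
      have b4 := L_one
      omega
    have e2 : L (X 2 - var x * var y) ≤ 2 := by
      have a1 := L_sub (X 2) (var x * var y)
      have b1 := e0 _ _ x1 y1
      omega
    have e3 : L ((var x * var y * X 2 - var x * var x - X 2 * X 2 + 1) * f) ≤ 4 * k :=
      (L_mul _ _).trans (Nat.mul_le_mul e1 f2)
    have e4 : L ((X 2 - var x * var y) * g) ≤ 2 * l :=
      (L_mul _ _).trans (Nat.mul_le_mul e2 g2)
    have e5 : L (var x * p) ≤ m := (L_mul _ _).trans
      ((Nat.mul_le_mul (L_X _) p2).trans (one_mul m).le)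
    have a1 := L_add ((var x * var y * X 2 - var x * var x - X 2 * X 2 + 1) * f
      + (X 2 - var x * var y) * g) (var x * p)
    have a2 := L_add ((var x * var y * X 2 - var x * var x - X 2 * X 2 + 1) * f)
      ((X 2 - var x * var y) * g)
    omega

/-! ### Lucas numbers -/

lemma lucas_add_two (n : ℕ) : lucas (n + 2) = lucas (n + 1) + lucas n := rfl

lemma lucas_pos (n : ℕ) : 1 ≤ lucas n := by
  induction n using Nat.strong_induction_on with
  | _ n ih =>
    match n with
    | 0 => simp [lucas]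
    | 1 => simp [lucas]
    | n + 2 =>
      rw [lucas_add_two]
      have := ih n (by omega)
      omega

lemma lucas_le_succ (n : ℕ) : lucas (n + 1) ≤ lucas (n + 2) := by
  rw [lucas_add_two]
  omega

lemma lucas_double (n : ℕ) : lucas (n + 3) ≤ 2 * lucas (n + 2) := by
  have h1 : lucas (n + 3) = lucas (n + 2) + lucas (n + 1) := rfl
  have h2 := lucas_le_succ n
  omega

/-! ### The induction -/

/-- Conditions on consecutive letters which allow a reduction. -/
def c2 (a b : Fin 2 × Bool) : Bool := a.1 == b.1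

/-- See `c2`. -/
def c3 (a b c : Fin 2 × Bool) : Bool := a.1 != b.1 && a.2 == b.2 && c == a

/-- See `c2`. -/
def c4 (a b c d : Fin 2 × Bool) : Bool := a.1 != b.1 && a.2 == b.2 && c == inv a && d == inv b

/-- See `c2`. -/
def c4' (a b c d : Fin 2 × Bool) : Bool := a.1 != b.1 && a.2 != b.2 && c == a && d == b

/-- See `c2`. -/
def c5 (a b c d e : Fin 2 × Bool) : Bool :=
  a.1 != b.1 && a.2 == b.2 && c == inv a && d == b && e == a

lemma comb3 : ∀ a b, c2 a b = false → ∀ c, c2 b c = false → c2 c a = true := by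
  decide

set_option synthInstance.maxSize 100000 in
lemma comb5 : ∀ a b, c2 a b = false → ∀ c, c2 b c = false → ∀ d, c2 c d = false →
    ∀ e, c2 d e = false → c2 e a = true := by
  decide

set_option synthInstance.maxSize 100000 in
lemma comb4 : ∀ a b, c2 a b = false → ∀ c, c2 b c = false → ∀ d, c2 c d = false →
    (c3 a b c || c3 b c d || c3 c d a || c3 d a b || c4 a b c d || c4 d a b c || c4' a b c d)
      = true := by
  decide

set_option synthInstance.maxSize 100000 in
lemma comb6 : ∀ a b, c2 a b = false → ∀ c, c2 b c = false → ∀ d, c2 c d = false →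
    ∀ e, c2 d e = false → ∀ f, c2 e f = false →
    (c3 a b c || c3 b c d || c3 c d e || c3 d e f || c4 a b c d || c4 b c d e || c4 c d e f ||
      c4' a b c d || c4' b c d e || c4' c d e f || c5 a b c d e || c5 b c d e f || c5 c d e f a)
      = true := by
  decide

set_option synthInstance.maxSize 100000 in
set_option maxRecDepth 10000 in
lemma comb7 : ∀ a b, c2 a b = false → ∀ c, c2 b c = false → ∀ d, c2 c d = false →
    ∀ e, c2 d e = false → ∀ f, c2 e f = false → ∀ g, c2 f g = false →
    (c3 a b c || c3 b c d || c3 c d e || c3 d e f || c3 e f g ||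
      c4 a b c d || c4 b c d e || c4 c d e f || c4 d e f g ||
      c4' a b c d || c4' b c d e || c4' c d e f || c4' d e f g ||
      c5 a b c d e || c5 b c d e f || c5 c d e f g) = true := by
  decide

lemma P_rot (u v : List (Fin 2 × Bool)) (h : P (v ++ u)) : P (u ++ v) := by
  rw [P_iff] at h ⊢
  have h2 : (u ++ v).length = (v ++ u).length := by simp [Nat.add_comm]
  rw [h2]
  exact Q_rot u v h

section

variable {n : ℕ} (IH : ∀ w : List (Fin 2 × Bool), w.length < n → P w)

include IH

lemma red2 (u : List (Fin 2 × Bool)) (x y : Fin 2 × Bool) (t : List (Fin 2 × Bool))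
    (h : c2 x y = true) (hn : (u ++ x :: y :: t).length = n) : P (u ++ x :: y :: t) := by
  refine P_rot _ _ ?_
  simp only [List.length_append, List.length_cons] at hn
  have h1 := IH (t ++ u) (by simp only [List.length_append]; omega)
  have h2 := IH (x :: (t ++ u)) (by simp only [List.length_append, List.length_cons]; omega)
  rw [P_iff] at h1 h2
  simp only [c2, beq_iff_eq] at h
  change P (x :: y :: (t ++ u))
  rw [P_iff]
  by_cases h3 : x.2 = y.2
  · have h4 : y = x := (Prod.ext h h3).symm
    rw [h4]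
    exact Q_square x _ h2 h1
  · refine (Q_cancel x y _ h h3 h1).mono ?_
    simp only [List.length_cons]
    rw [lucas_add_two]
    omega

lemma red3 (u : List (Fin 2 × Bool)) (x y z : Fin 2 × Bool) (t : List (Fin 2 × Bool))
    (h : c3 x y z = true) (hn : (u ++ x :: y :: z :: t).length = n) :
    P (u ++ x :: y :: z :: t) := by
  refine P_rot _ _ ?_
  simp only [List.length_append, List.length_cons] at hn
  simp only [c3, Bool.and_eq_true, beq_iff_eq, bne_iff_ne] at h
  obtain ⟨⟨h1, h2⟩, rfl⟩ := h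
  have h3 := IH (z :: (t ++ u)) (by simp only [List.length_append, List.length_cons]; omega)
  have h4 := IH (inv y :: (t ++ u)) (by simp only [List.length_append, List.length_cons]; omega)
  rw [P_iff] at h3 h4
  change P (z :: y :: z :: (t ++ u))
  rw [P_iff]
  refine (Q_three z y _ h1 h2 h3 h4).mono ?_
  simp only [List.length_cons]
  have e0 : lucas ((t ++ u).length + 1) ≤ lucas ((t ++ u).length + 1 + 1) := lucas_le_succ _
  have e1 : lucas ((t ++ u).length + 1 + 1 + 1) =
    lucas ((t ++ u).length + 1 + 1) + lucas ((t ++ u).length + 1) := rfl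
  omega

lemma red4 (u : List (Fin 2 × Bool)) (x y z w : Fin 2 × Bool) (t : List (Fin 2 × Bool))
    (h : c4 x y z w = true) (hn : (u ++ x :: y :: z :: w :: t).length = n) :
    P (u ++ x :: y :: z :: w :: t) := by
  refine P_rot _ _ ?_
  simp only [List.length_append, List.length_cons] at hn
  simp only [c4, Bool.and_eq_true, beq_iff_eq, bne_iff_ne] at h
  obtain ⟨⟨⟨h1, h2⟩, rfl⟩, rfl⟩ := h
  have h3 := IH (x :: (t ++ u)) (by simp only [List.length_append, List.length_cons]; omega)
  have h4 := IH (x :: inv y :: (t ++ u))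
    (by simp only [List.length_append, List.length_cons]; omega)
  have h5 := IH (inv y :: (t ++ u)) (by simp only [List.length_append, List.length_cons]; omega)
  have h6 := IH (t ++ u) (by simp only [List.length_append]; omega)
  rw [P_iff] at h3 h4 h5 h6
  change P (x :: y :: inv x :: inv y :: (t ++ u))
  rw [P_iff]
  refine (Q_comm x y _ h1 h2 h3 h4 h5 h6).mono ?_
  simp only [List.length_cons]
  have e1 := lucas_add_two (t ++ u).length
  have e2 : lucas ((t ++ u).length + 1 + 1 + 1) =
    lucas ((t ++ u).length + 1 + 1) + lucas ((t ++ u).length + 1) := rfl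
  have e3 : lucas ((t ++ u).length + 1 + 1 + 1 + 1) =
    lucas ((t ++ u).length + 1 + 1 + 1) + lucas ((t ++ u).length + 1 + 1) := rfl
  have e4 : lucas ((t ++ u).length + 1 + 1) =
    lucas ((t ++ u).length + 1) + lucas ((t ++ u).length) := rfl
  omega

lemma red4' (u : List (Fin 2 × Bool)) (x y z w : Fin 2 × Bool) (t : List (Fin 2 × Bool))
    (h : c4' x y z w = true) (hn : (u ++ x :: y :: z :: w :: t).length = n) :
    P (u ++ x :: y :: z :: w :: t) := by
  refine P_rot _ _ ?_
  simp only [List.length_append, List.length_cons] at hn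
  simp only [c4', Bool.and_eq_true, beq_iff_eq, bne_iff_ne] at h
  obtain ⟨⟨⟨h1, h2⟩, rfl⟩, rfl⟩ := h
  change P (z :: w :: z :: w :: (t ++ u))
  rw [P_iff]
  have hlen := List.length_append (as := t) (bs := u)
  generalize t ++ u = r at hlen ⊢
  rcases r with _ | ⟨a, s⟩
  · exact (Q_four z w [] h1 h2 (Q_two z w h1) Q_nil).mono (by simp [lucas])
  · simp only [List.length_cons] at hlen
    have h3 := IH (z :: w :: a :: s) (by simp only [List.length_cons]; omega)
    have h4 := IH (a :: s) (by simp only [List.length_cons]; omega)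
    rw [P_iff] at h3 h4
    refine (Q_four z w _ h1 h2 h3 h4).mono ?_
    simp only [List.length_cons]
    have e1 : lucas (s.length + 1 + 1) = lucas (s.length + 1) + lucas s.length := rfl
    have e2 : lucas (s.length + 1 + 1 + 1) = lucas (s.length + 1 + 1) + lucas (s.length + 1) := rfl
    have e3 : lucas (s.length + 1 + 1 + 1 + 1) =
      lucas (s.length + 1 + 1 + 1) + lucas (s.length + 1 + 1) := rfl
    have e4 : lucas (s.length + 1 + 1 + 1 + 1 + 1) =
      lucas (s.length + 1 + 1 + 1 + 1) + lucas (s.length + 1 + 1 + 1) := rfl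
    omega

lemma red5 (u : List (Fin 2 × Bool)) (x y z w q : Fin 2 × Bool) (t : List (Fin 2 × Bool))
    (h : c5 x y z w q = true) (hn : (u ++ x :: y :: z :: w :: q :: t).length = n) :
    P (u ++ x :: y :: z :: w :: q :: t) := by
  refine P_rot _ _ ?_
  simp only [List.length_append, List.length_cons] at hn
  simp only [c5, Bool.and_eq_true, beq_iff_eq, bne_iff_ne] at h
  obtain ⟨⟨⟨⟨h1, h2⟩, rfl⟩, rfl⟩, rfl⟩ := h
  change P (q :: w :: inv q :: w :: q :: (t ++ u))
  rw [P_iff]
  have hlen := List.length_append (as := t) (bs := u)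
  generalize t ++ u = r at hlen ⊢
  have h3 := IH (q :: r) (by simp only [List.length_cons]; omega)
  have h4 := IH (inv w :: r) (by simp only [List.length_cons]; omega)
  have h5 := IH r (by omega)
  rw [P_iff] at h3 h4 h5
  match r, h3, h4, h5 with
  | [], h3, h4, h5 =>
    exact (Q_five q w _ h1 h2 h3 h4 h5).mono (by simp [lucas])
  | [l], h3, h4, h5 =>
    by_cases hl : q.1 = l.1
    · have h6 : (inv w).1 ≠ l.1 := by
        rw [← hl]
        exact fun h => h1 h.symm
      exact (Q_five q w _ h1 h2 h3 (Q_two _ _ h6) h5).mono (by simp [lucas])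
    · exact (Q_five q w _ h1 h2 (Q_two _ _ hl) h4 h5).mono (by simp [lucas])
  | a :: b :: s, h3, h4, h5 =>
    refine (Q_five q w _ h1 h2 h3 h4 h5).mono ?_
    simp only [List.length_cons]
    have e0 : lucas (s.length + 1 + 1 + 1) ≤ 2 * lucas (s.length + 1 + 1) := lucas_double _
    have e1 : lucas (s.length + 1 + 1 + 1) = lucas (s.length + 1 + 1) + lucas (s.length + 1) := rfl
    have e2 : lucas (s.length + 1 + 1 + 1 + 1) =
      lucas (s.length + 1 + 1 + 1) + lucas (s.length + 1 + 1) := rfl
    have e3 : lucas (s.length + 1 + 1 + 1 + 1 + 1) =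
      lucas (s.length + 1 + 1 + 1 + 1) + lucas (s.length + 1 + 1 + 1) := rfl
    have e4 : lucas (s.length + 1 + 1 + 1 + 1 + 1 + 1) =
      lucas (s.length + 1 + 1 + 1 + 1 + 1) + lucas (s.length + 1 + 1 + 1 + 1) := rfl
    have e5 : lucas (s.length + 1 + 1 + 1 + 1 + 1 + 1 + 1) =
      lucas (s.length + 1 + 1 + 1 + 1 + 1 + 1) + lucas (s.length + 1 + 1 + 1 + 1 + 1) := rfl
    omega

lemma step (v : List (Fin 2 × Bool)) (hn : v.length = n) : P v := by
  match v, hn with
  | [], hn => exact Q_nil
  | [a], hn => exact Q_one a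
  | [a, b], hn =>
    cases h1 : c2 a b with
    | true => exact red2 IH [] a b [] h1 hn
    | false => exact (Q_two a b (by simpa [c2] using h1)).mono (by simp [lucas])
  | [a, b, c], hn =>
    cases h1 : c2 a b with
    | true => exact red2 IH [] a b [c] h1 hn
    | false =>
    cases h2 : c2 b c with
    | true => exact red2 IH [a] b c [] h2 hn
    | false => exact P_rot [a, b] [c] (red2 IH [] c a [b] (comb3 a b h1 c h2) hn)
  | [a, b, c, d], hn =>
    cases h1 : c2 a b with
    | true => exact red2 IH [] a b [c, d] h1 hn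
    | false =>
    cases h2 : c2 b c with
    | true => exact red2 IH [a] b c [d] h2 hn
    | false =>
    cases h3 : c2 c d with
    | true => exact red2 IH [a, b] c d [] h3 hn
    | false =>
    have h := comb4 a b h1 c h2 d h3
    simp only [Bool.or_eq_true] at h
    rcases h with (((((h | h) | h) | h) | h) | h) | h
    · exact red3 IH [] a b c [d] h hn
    · exact red3 IH [a] b c d [] h hn
    · exact P_rot [a, b] [c, d] (red3 IH [] c d a [b] h hn)
    · exact P_rot [a, b, c] [d] (red3 IH [] d a b [c] h hn)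
    · exact red4 IH [] a b c d [] h hn
    · exact P_rot [a, b, c] [d] (red4 IH [] d a b c [] h hn)
    · exact red4' IH [] a b c d [] h hn
  | [a, b, c, d, e], hn =>
    cases h1 : c2 a b with
    | true => exact red2 IH [] a b [c, d, e] h1 hn
    | false =>
    cases h2 : c2 b c with
    | true => exact red2 IH [a] b c [d, e] h2 hn
    | false =>
    cases h3 : c2 c d with
    | true => exact red2 IH [a, b] c d [e] h3 hn
    | false =>
    cases h4 : c2 d e with
    | true => exact red2 IH [a, b, c] d e [] h4 hn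
    | false =>
      exact P_rot [a, b, c, d] [e] (red2 IH [] e a [b, c, d] (comb5 a b h1 c h2 d h3 e h4) hn)
  | [a, b, c, d, e, f], hn =>
    cases h1 : c2 a b with
    | true => exact red2 IH [] a b [c, d, e, f] h1 hn
    | false =>
    cases h2 : c2 b c with
    | true => exact red2 IH [a] b c [d, e, f] h2 hn
    | false =>
    cases h3 : c2 c d with
    | true => exact red2 IH [a, b] c d [e, f] h3 hn
    | false =>
    cases h4 : c2 d e with
    | true => exact red2 IH [a, b, c] d e [f] h4 hn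
    | false =>
    cases h5 : c2 e f with
    | true => exact red2 IH [a, b, c, d] e f [] h5 hn
    | false =>
    have h := comb6 a b h1 c h2 d h3 e h4 f h5
    simp only [Bool.or_eq_true] at h
    rcases h with (((((((((((h | h) | h) | h) | h) | h) | h) | h) | h) | h) | h) | h) | h
    · exact red3 IH [] a b c [d, e, f] h hn
    · exact red3 IH [a] b c d [e, f] h hn
    · exact red3 IH [a, b] c d e [f] h hn
    · exact red3 IH [a, b, c] d e f [] h hn
    · exact red4 IH [] a b c d [e, f] h hn
    · exact red4 IH [a] b c d e [f] h hn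
    · exact red4 IH [a, b] c d e f [] h hn
    · exact red4' IH [] a b c d [e, f] h hn
    · exact red4' IH [a] b c d e [f] h hn
    · exact red4' IH [a, b] c d e f [] h hn
    · exact red5 IH [] a b c d e [f] h hn
    · exact red5 IH [a] b c d e f [] h hn
    · exact P_rot [a, b] [c, d, e, f] (red5 IH [] c d e f a [b] h hn)
  | a :: b :: c :: d :: e :: f :: g :: t, hn =>
    cases h1 : c2 a b with
    | true => exact red2 IH [] a b (c :: d :: e :: f :: g :: t) h1 hn
    | false =>
    cases h2 : c2 b c with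
    | true => exact red2 IH [a] b c (d :: e :: f :: g :: t) h2 hn
    | false =>
    cases h3 : c2 c d with
    | true => exact red2 IH [a, b] c d (e :: f :: g :: t) h3 hn
    | false =>
    cases h4 : c2 d e with
    | true => exact red2 IH [a, b, c] d e (f :: g :: t) h4 hn
    | false =>
    cases h5 : c2 e f with
    | true => exact red2 IH [a, b, c, d] e f (g :: t) h5 hn
    | false =>
    cases h6 : c2 f g with
    | true => exact red2 IH [a, b, c, d, e] f g t h6 hn
    | false =>
    have h := comb7 a b h1 c h2 d h3 e h4 f h5 g h6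
    simp only [Bool.or_eq_true] at h
    rcases h with ((((((((((((((h | h) | h) | h) | h) | h) | h) | h) | h) | h) | h) | h) | h) | h)
      | h) | h
    · exact red3 IH [] a b c (d :: e :: f :: g :: t) h hn
    · exact red3 IH [a] b c d (e :: f :: g :: t) h hn
    · exact red3 IH [a, b] c d e (f :: g :: t) h hn
    · exact red3 IH [a, b, c] d e f (g :: t) h hn
    · exact red3 IH [a, b, c, d] e f g t h hn
    · exact red4 IH [] a b c d (e :: f :: g :: t) h hn
    · exact red4 IH [a] b c d e (f :: g :: t) h hn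
    · exact red4 IH [a, b] c d e f (g :: t) h hn
    · exact red4 IH [a, b, c] d e f g t h hn
    · exact red4' IH [] a b c d (e :: f :: g :: t) h hn
    · exact red4' IH [a] b c d e (f :: g :: t) h hn
    · exact red4' IH [a, b] c d e f (g :: t) h hn
    · exact red4' IH [a, b, c] d e f g t h hn
    · exact red5 IH [] a b c d e (f :: g :: t) h hn
    · exact red5 IH [a] b c d e f (g :: t) h hn
    · exact red5 IH [a, b] c d e f g t h hn

end

theorem P_all (v : List (Fin 2 × Bool)) : P v := by
  have h : ∀ n : ℕ, ∀ v : List (Fin 2 × Bool), v.length = n → P v := by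
    intro n
    induction n using Nat.strong_induction_on with
    | _ n ih => exact fun v hv => step (fun w hw => ih w.length hw w rfl) v hv
  exact h _ v rfl

/-! ### Existence and uniqueness of trace polynomials -/

lemma pt_surjective (v : Fin 3 → ℂ) : ∃ A B : SL2, pt A B = v := by
  obtain ⟨s, hs⟩ := IsAlgClosed.exists_pow_nat_eq (v 2 ^ 2 - 4) (n := 2) (by norm_num)
  obtain ⟨A, hA⟩ : ∃ A : SL2, (A : Matrix (Fin 2) (Fin 2) ℂ) = !![v 0, -1; 1, 0] :=
    ⟨⟨!![v 0, -1; 1, 0], by simp [Matrix.det_fin_two]⟩, rfl⟩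
  obtain ⟨B, hB⟩ : ∃ B : SL2, (B : Matrix (Fin 2) (Fin 2) ℂ) =
      !![0, (v 2 + s) / 2; -((v 2 - s) / 2), v 1] := by
    refine ⟨⟨!![0, (v 2 + s) / 2; -((v 2 - s) / 2), v 1], ?_⟩, rfl⟩
    rw [Matrix.det_fin_two]
    simp
    linear_combination -hs / 4
  refine ⟨A, B, ?_⟩
  funext i
  fin_cases i
  · simp [pt, tr, Matrix.trace_fin_two, hA]
  · simp [pt, tr, Matrix.trace_fin_two, hB]
  · change tr (A * B) = v 2
    unfold tr
    rw [Matrix.SpecialLinearGroup.coe_mul, hA, hB]
    simp [Matrix.trace_fin_two]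
    ring

lemma eq_of_aeval (f g : R) (h : ∀ v : Fin 3 → ℂ, aeval v f = aeval v g) : f = g := by
  have hinj : Function.Injective (algebraMap ℤ ℂ) := by
    intro a b hab
    simpa using hab
  refine MvPolynomial.map_injective (algebraMap ℤ ℂ) hinj ?_
  refine MvPolynomial.funext fun v => ?_
  have := h v
  rw [MvPolynomial.aeval_def, MvPolynomial.aeval_def] at this
  rw [MvPolynomial.eval_map, MvPolynomial.eval_map, this]

lemma unique {w : FreeGroup (Fin 2)} {f g : R} (hf : IsTracePolynomial w f)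
    (hg : IsTracePolynomial w g) : f = g := by
  refine eq_of_aeval f g fun v => ?_
  obtain ⟨A, B, rfl⟩ := pt_surjective v
  rw [hf A B, hg A B]

lemma exists_trace (w : FreeGroup (Fin 2)) : ∃ f, IsTracePolynomial w f := by
  obtain ⟨f, h, -⟩ := P_all w.toWord
  refine ⟨f, fun A B => ?_⟩
  rw [h, ← value_mk, FreeGroup.mk_toWord]

lemma spec (w : FreeGroup (Fin 2)) : IsTracePolynomial w (tracePolynomial w) := by
  unfold tracePolynomial
  rw [dif_pos (exists_trace w)]
  exact (exists_trace w).choose_spec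

lemma IsTracePolynomial.conj {u w : FreeGroup (Fin 2)} {f : R} (hf : IsTracePolynomial u f)
    (h : IsConj u w) : IsTracePolynomial w f := by
  intro A B
  obtain ⟨c, rfl⟩ := isConj_iff.mp h
  rw [hf A B, map_mul, map_mul, map_inv, tr_mul_comm, inv_mul_cancel_left]

lemma L_le_lucas {w : FreeGroup (Fin 2)} {n : ℕ} (h : HasLength w n) :
    L (tracePolynomial w) ≤ lucas n := by
  obtain ⟨v, -, rfl, hc⟩ := h
  obtain ⟨f, h1, h2⟩ := P_all v
  have h3 : IsTracePolynomial (FreeGroup.mk v) f := fun A B => by rw [h1, value_mk]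
  rw [unique (spec w) (h3.conj hc)]
  exact h2

/-! ### The powers of `a` -/

/-- The polynomials of the traces of powers. -/
noncomputable def q : ℕ → Polynomial ℤ
  | 0 => 2
  | 1 => Polynomial.X
  | n + 2 => Polynomial.X * q (n + 1) - q n

lemma q_degree (n : ℕ) : (q n).natDegree ≤ n := by
  induction n using Nat.strong_induction_on with
  | _ n ih =>
    match n with
    | 0 =>
      rw [q]
      exact (Polynomial.natDegree_ofNat 2).le
    | 1 =>
      rw [q]
      exact Polynomial.natDegree_X_le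
    | n + 2 =>
      rw [q]
      refine (Polynomial.natDegree_sub_le _ _).trans (max_le ?_ ?_)
      · refine Polynomial.natDegree_mul_le.trans ?_
        have h1 := ih (n + 1) (by omega)
        have h2 := Polynomial.natDegree_X_le (R := ℤ)
        omega
      · have := ih n (by omega)
        omega

lemma q_aeval {S : Type*} [CommRing S] (x : S) (g : ℕ → S) (h0 : g 0 = 2) (h1 : g 1 = x)
    (h2 : ∀ n, g (n + 2) = x * g (n + 1) - g n) (n : ℕ) : Polynomial.aeval x (q n) = g n := by
  induction n using Nat.strong_induction_on with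
  | _ n ih =>
    match n with
    | 0 => rw [q, h0, map_ofNat]
    | 1 => rw [q, h1, Polynomial.aeval_X]
    | n + 2 => rw [q, h2, map_sub, map_mul, Polynomial.aeval_X, ih n (by omega),
        ih (n + 1) (by omega)]

/-- The trace polynomial of `a ^ n`. -/
noncomputable def p (n : ℕ) : R := Polynomial.aeval (X 0 : R) (q n)

lemma aeval_p (v : Fin 3 → ℂ) (n : ℕ) : aeval v (p n) = Polynomial.aeval (v 0) (q n) := by
  unfold p
  rw [← Polynomial.aeval_algHom_apply, MvPolynomial.aeval_X]

lemma p_spec (n : ℕ) : IsTracePolynomial (FreeGroup.mk (List.replicate n (0, true))) (p n) := by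
  intro A B
  have hm : ∀ n, mat A B (List.replicate n (0, true)) = A ^ n := by
    intro n
    simp [mat, lm]
  rw [value_mk, aeval_p, hm]
  refine q_aeval _ (fun n => tr (A ^ n)) ?_ ?_ ?_ n
  · simp [tr_one]
  · simp [pt]
  · intro n
    have := t2 A (A ^ n)
    simp only [pt, Matrix.cons_val_zero]
    rw [pow_succ', pow_succ', this]

lemma hasLength_pow (n : ℕ) : HasLength (FreeGroup.mk (List.replicate n (0, true))) n := by
  refine ⟨List.replicate n (0, true), ⟨?_, ?_⟩, List.length_replicate, IsConj.refl _⟩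
  · exact List.isChain_replicate_of_rel _ (fun _ => rfl)
  · intro a ha b hb _
    have h1 := List.eq_of_mem_replicate (List.mem_of_getLast? ha)
    have h2 := List.eq_of_mem_replicate (List.mem_of_mem_head? hb)
    rw [h1, h2]

lemma trace_pow (n : ℕ) : tracePolynomial (FreeGroup.mk (List.replicate n (0, true))) = p n :=
  unique (spec _) (p_spec n)

lemma lucas_le_L (n : ℕ) : lucas n ≤ L (p n) := by
  have h := norm_aeval_le ![Complex.I, 0, 0] (by intro i; fin_cases i <;> simp) (p n)
  rw [aeval_p, q_aeval _ (fun n => Complex.I ^ n * lucas n)] at h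
  · rw [norm_mul, norm_pow, Complex.norm_I, one_pow, one_mul] at h
    have h2 : ‖((lucas n : ℕ) : ℂ)‖ = (lucas n : ℝ) := by simp
    rw [h2] at h
    exact_mod_cast h
  · simp [lucas]
  · simp [lucas]
  · intro n
    simp only [Matrix.cons_val_zero, lucas]
    push_cast
    ring_nf
    rw [Complex.I_sq]
    ring

lemma L_le_H (n : ℕ) : L (p n) ≤ (n + 1) * H (p n) := by
  classical
  have hp : p n = ∑ k ∈ Finset.range (n + 1),
      monomial (Finsupp.single (0 : Fin 3) k) ((q n).coeff k) := by
    unfold p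
    rw [Polynomial.aeval_eq_sum_range' (Nat.lt_succ_of_le (q_degree n))]
    refine Finset.sum_congr rfl fun k _ => ?_
    rw [MvPolynomial.X_pow_eq_monomial, MvPolynomial.smul_monomial, smul_eq_mul, mul_one]
  have hc : ∀ k ∈ Finset.range (n + 1), ((q n).coeff k).natAbs ≤ H (p n) := by
    intro k hk
    have h1 : (p n).coeff (Finsupp.single (0 : Fin 3) k) = (q n).coeff k := by
      rw [hp, MvPolynomial.coeff_sum, Finset.sum_eq_single k]
      · rw [MvPolynomial.coeff_monomial, if_pos rfl]
      · intro j _ hj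
        rw [MvPolynomial.coeff_monomial, if_neg]
        intro h
        exact hj (Finsupp.single_injective _ h)
      · exact fun h => absurd hk h
    by_cases h0 : (q n).coeff k = 0
    · simp [h0]
    · rw [← h1]
      unfold H
      refine Finset.le_sup (f := fun m => ((p n).coeff m).natAbs) ?_
      rw [MvPolynomial.mem_support_iff, h1]
      exact h0
  calc L (p n) ≤ ∑ k ∈ Finset.range (n + 1),
        L (monomial (Finsupp.single (0 : Fin 3) k) ((q n).coeff k)) := by
        conv_lhs => rw [hp]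
        exact L_sum _ _
    _ ≤ ∑ k ∈ Finset.range (n + 1), H (p n) :=
        Finset.sum_le_sum fun k hk => (L_monomial _ _).trans (hc k hk)
    _ = (n + 1) * H (p n) := by rw [Finset.sum_const, Finset.card_range, smul_eq_mul]

/-! ### The maxima -/

theorem isGreatest_L (n : ℕ) :
    IsGreatest {l | ∃ w, HasLength w n ∧ L (tracePolynomial w) = l} (lucas n) := by
  constructor
  · refine ⟨_, hasLength_pow n, ?_⟩
    have h1 := L_le_lucas (hasLength_pow n)
    rw [trace_pow] at h1 ⊢
    exact le_antisymm h1 (lucas_le_L n)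
  · rintro l ⟨w, hw, rfl⟩
    exact L_le_lucas hw

lemma maxL_eq (n : ℕ) : maxL n = lucas n := (isGreatest_L n).csSup_eq

lemma H_bdd (n : ℕ) : lucas n ∈ upperBounds {l | ∃ w, HasLength w n ∧ H (tracePolynomial w) = l} := by
  rintro l ⟨w, hw, rfl⟩
  exact (H_le_L _).trans (L_le_lucas hw)

lemma maxH_le (n : ℕ) : maxH n ≤ lucas n :=
  csSup_le ⟨_, _, hasLength_pow n, rfl⟩ (H_bdd n)

lemma lucas_le_maxH (n : ℕ) : lucas n ≤ (n + 1) * maxH n := by
  refine ((lucas_le_L n).trans (L_le_H n)).trans (Nat.mul_le_mul_left _ ?_)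
  refine le_csSup ⟨_, H_bdd n⟩ ⟨_, hasLength_pow n, ?_⟩
  rw [trace_pow]

/-! ### The rates -/

open Real in
lemma golden_lucas (n : ℕ) : goldenRatio ^ n ≤ 2 * (lucas n : ℝ) ∧
    (lucas n : ℝ) ≤ 2 * goldenRatio ^ n := by
  have h1 := Real.one_lt_goldenRatio
  have h2 := Real.goldenRatio_lt_two
  induction n using Nat.strong_induction_on with
  | _ n ih =>
    match n with
    | 0 => norm_num [lucas]
    | 1 =>
      constructor
      · simp only [lucas, pow_one]
        push_cast
        linarith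
      · simp only [lucas, pow_one]
        push_cast
        linarith
    | n + 2 =>
      have e : goldenRatio ^ (n + 2) = goldenRatio ^ (n + 1) + goldenRatio ^ n := by
        rw [pow_add, Real.goldenRatio_sq, pow_succ]
        ring
      have i1 := ih (n + 1) (by omega)
      have i2 := ih n (by omega)
      rw [e, lucas_add_two]
      push_cast
      constructor <;> linarith [i1.1, i1.2, i2.1, i2.2]

lemma root_tendsto (a : ℕ → ℕ) (h1 : ∀ n, a n ≤ lucas n) (h2 : ∀ n, lucas n ≤ (n + 1) * a n) :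
    Tendsto (fun n : ℕ => (a n : ℝ) ^ (1 / (n : ℝ))) atTop (𝓝 Real.goldenRatio) := by
  have hφ : (0 : ℝ) < Real.goldenRatio := Real.goldenRatio_pos
  have hroot : ∀ n : ℕ, 1 ≤ n → (Real.goldenRatio ^ n) ^ (1 / (n : ℝ)) = Real.goldenRatio := by
    intro n hn
    rw [one_div]
    exact Real.pow_rpow_inv_natCast hφ.le (by omega)
  have hup : Tendsto (fun n : ℕ => (2 : ℝ) ^ (1 / (n : ℝ)) * Real.goldenRatio) atTop
      (𝓝 Real.goldenRatio) := by
    have h3 : Tendsto (fun n : ℕ => (2 : ℝ) ^ (1 / (n : ℝ))) atTop (𝓝 ((2 : ℝ) ^ (0 : ℝ))) :=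
      tendsto_const_nhds.rpow tendsto_one_div_atTop_nhds_zero_nat (Or.inl two_ne_zero)
    rw [Real.rpow_zero] at h3
    simpa using h3.mul_const Real.goldenRatio
  have hlo : Tendsto (fun n : ℕ => Real.goldenRatio / (2 * (n : ℝ) + 2) ^ (1 / (n : ℝ))) atTop
      (𝓝 Real.goldenRatio) := by
    have h3 := tendsto_rpow_div_mul_add 2 1 (-2) (by norm_num)
    have h4 : Tendsto (fun n : ℕ => 2 * (n : ℝ) + 2) atTop atTop := by
      refine tendsto_atTop_add_const_right _ _ ?_
      exact tendsto_natCast_atTop_atTop.const_mul_atTop (by norm_num)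
    have h5 := h3.comp h4
    have h6 : Tendsto (fun n : ℕ => (2 * (n : ℝ) + 2) ^ (1 / (n : ℝ))) atTop (𝓝 1) := by
      refine h5.congr' ?_
      filter_upwards [eventually_ge_atTop 1] with n hn
      have hn' : (n : ℝ) ≠ 0 := by
        have : (1 : ℝ) ≤ n := by exact_mod_cast hn
        linarith
      have e : (2 : ℝ) / (1 * (2 * (n : ℝ) + 2) + -2) = 1 / n := by
        rw [show (1 : ℝ) * (2 * (n : ℝ) + 2) + -2 = 2 * n by ring]
        field_simp
      simp only [Function.comp]
      rw [e]
    have h7 : Tendsto (fun n : ℕ => Real.goldenRatio / (2 * (n : ℝ) + 2) ^ (1 / (n : ℝ))) atTop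
        (𝓝 (Real.goldenRatio / 1)) := tendsto_const_nhds.div h6 one_ne_zero
    simpa using h7
  refine tendsto_of_tendsto_of_tendsto_of_le_of_le' hlo hup ?_ ?_
  · filter_upwards [eventually_ge_atTop 1] with n hn
    have h3 : Real.goldenRatio ^ n ≤ (2 * (n : ℝ) + 2) * (a n : ℝ) := by
      have h4 := (golden_lucas n).1
      have h5 : (lucas n : ℝ) ≤ ((n : ℝ) + 1) * (a n : ℝ) := by exact_mod_cast h2 n
      nlinarith
    rw [div_le_iff₀ (by positivity)]
    calc Real.goldenRatio = (Real.goldenRatio ^ n) ^ (1 / (n : ℝ)) := (hroot n hn).symm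
      _ ≤ ((2 * (n : ℝ) + 2) * (a n : ℝ)) ^ (1 / (n : ℝ)) :=
          Real.rpow_le_rpow (by positivity) h3 (by positivity)
      _ = (a n : ℝ) ^ (1 / (n : ℝ)) * (2 * (n : ℝ) + 2) ^ (1 / (n : ℝ)) := by
          rw [Real.mul_rpow (by positivity) (by positivity), mul_comm]
  · filter_upwards [eventually_ge_atTop 1] with n hn
    have h3 : (a n : ℝ) ≤ 2 * Real.goldenRatio ^ n := by
      have h4 : (a n : ℝ) ≤ lucas n := by exact_mod_cast h1 n
      exact h4.trans (golden_lucas n).2
    calc (a n : ℝ) ^ (1 / (n : ℝ)) ≤ (2 * Real.goldenRatio ^ n) ^ (1 / (n : ℝ)) :=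
          Real.rpow_le_rpow (by positivity) h3 (by positivity)
      _ = (2 : ℝ) ^ (1 / (n : ℝ)) * Real.goldenRatio := by
          rw [Real.mul_rpow (by norm_num) (by positivity), hroot n hn]

/-- **The rates `C_H` and `C_L` are the golden ratio.**  Trace polynomials exist and are unique;
`C_H = C_L = (1 + √5) / 2`; and for every `n` the largest value of `L(w)` over all `w` of cyclically
reduced length `n` is exactly the `n`-th Lucas number, attained by `a ^ n`. -/
theorem result :
    (∀ w, IsTracePolynomial w (tracePolynomial w)) ∧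
    (∀ w f, IsTracePolynomial w f → f = tracePolynomial w) ∧
    rateH = Real.goldenRatio ∧ rateL = Real.goldenRatio ∧
    (∀ n : ℕ, IsGreatest {l | ∃ w, HasLength w n ∧ L (tracePolynomial w) = l} (lucas n)) ∧
    (∀ n : ℕ, L (tracePolynomial (FreeGroup.of 0 ^ n)) = lucas n) := by
  refine ⟨spec, fun w f h => unique h (spec w), ?_, ?_, isGreatest_L, ?_⟩
  · exact (root_tendsto maxH maxH_le lucas_le_maxH).limsup_eq
  · refine (root_tendsto maxL (fun n => (maxL_eq n).le) fun n => ?_).limsup_eq
    rw [maxL_eq]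
    exact Nat.le_mul_of_pos_left _ (Nat.succ_pos n)
  · intro n
    have h : (FreeGroup.of 0 ^ n : FreeGroup (Fin 2)) = FreeGroup.mk (List.replicate n (0, true)) := by
      induction n with
      | zero => rfl
      | succ n ih =>
        rw [pow_succ', ih]
        rfl
    rw [h]
    refine le_antisymm (L_le_lucas (hasLength_pow n)) ?_
    rw [trace_pow]
    exact lucas_le_L n

end Pool.Agent.Results.MP_58e1fa_al.GoldenRate
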